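import Mathlib
import Pool.Agent.MP_f01bcf_lc.Defs
import Pool.Agent.MP_f01bcf_lc.Main

open Pool.Agent.MP_f01bcf_lc

/-- There is a finite maximal code `X` over a two-letter alphabet and a letter `a` of order
`n` for which no Krasner factorization `(I, J)` of order `n` has `a^I` a left set and `a^J` a
right set of `X`. -/
theorem Pool.Agent.Results.MP_f01bcf_lc.KrasnerFails.result :
    ∃ X : Finset (List Bool), IsMaximalCode (X : Set (List Bool)) ∧
      ∃ (a : Bool) (n : ℕ), 1 ≤ n ∧ List.replicate n a ∈ X ∧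
        ¬ ∃ I J : Set ℕ, IsKrasner n I J ∧ IsLeftSet X a n I ∧ IsRightSet X a n J := by
  refine ⟨code, isMaximalCode_code, false, 6, by norm_num, mem_code.2 (by decide), ?_⟩
  rintro ⟨I, J, hK, ⟨y, _, rfl⟩, ⟨x, hJ⟩, hJ2⟩
  have hlen : 2 * 6 * maxLen code = 96 := by rw [maxLen_code]
  simp only [hlen] at hK hJ
  obtain ⟨⟨i0, j0⟩, ⟨hi0, hj0, hsum0⟩, _⟩ := hK 0 (by norm_num)
  obtain ⟨⟨i1, j1⟩, ⟨hi1, hj1, hsum1⟩, _⟩ := hK 1 (by norm_num)
  simp only at hi0 hj0 hsum0 hi1 hj1 hsum1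
  have e1 : i0 = 0 := by omega
  have e2 : j0 = 0 := by omega
  subst e1 e2
  rcases (by omega : (i1 = 1 ∧ j1 = 0) ∨ (i1 = 0 ∧ j1 = 1)) with ⟨rfl, rfl⟩ | ⟨rfl, rfl⟩
  · -- `0, 1 ∈ I`
    apply one_not_return
    refine ⟨_, hi0.2, ?_⟩
    have : y ++ List.replicate (96 + 0) false ++ [false] =
        y ++ List.replicate (96 + 1) false := by
      rw [List.append_assoc, ← List.replicate_succ']
    rw [this]
    exact hi1.2
  · -- `0, 1 ∈ J`
    have h3 : 3 ∈ J := by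
      rw [hJ] at hj0 hj1 ⊢
      exact ⟨by norm_num, right_completable x hj0.2 hj1.2⟩
    exact hJ2 0 hj0 3 h3 (by norm_num) three_return
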